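import Pool.Agent.H48.M5.Stmts
import Pool.Agent.H83.OCG.Time2

/-!
# N1 for arbitrary time laws: the statement

The hypothesis (H1) of the prediction lemma N1 (`Pool.M5.N1Stmt`: the digits of the time are full
given the line) is replaced by: `T` is nearly independent of the line, two samples of one line are
not nearer than `2 ^ (-k')` outside probability `εT`, and the same holds in the mean over the
scales in the windows of the scale. The numbers `κ` and `εT` are chosen before `k'`. Nothing is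
assumed about the entropy of the time.
-/

set_option autoImplicit false

namespace Pool.M5L

open Finset Real Pool.M5
open Pool.Agent.H49.Ent Pool.Agent.H32.Dense Pool.STK Pool.KAF

/-- (H1) for arbitrary time laws. -/
structure NH {K : ℕ} (d : NDat K) (ι : ℝ) (k' : ℕ) (εT : ℝ) : Prop where
  mi : Pool.KVA.MI d.P d.T d.L (fun _ => ()) ≤ ι * d.X
  tc : Pr (dbl d.P d.L) {w | |d.th (d.T w.2) - d.th (d.T w.1)| < (2 : ℝ) ^ (-(k' : ℤ))} ≤ εT
  tb : ∑ i ∈ range d.X, Pool.OCG.nr d.P d.L (fun ω => d.th (d.T ω)) k' i ≤ εT * d.X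

/-- **Lemma N1 for arbitrary time laws.** -/
def N1LStmt : Prop :=
  ∀ (K A : ℕ) (c ε : ℝ), 0 < c → 0 < ε → ∃ κ εT : ℝ, 0 < κ ∧ κ ≤ 1 ∧ 0 < εT ∧ ∀ k' : ℕ,
    ∃ (π₀ ι : ℝ) (X₀ : ℕ), 0 < π₀ ∧ 0 < ι ∧ ∀ d : NDat K, d.OK A → X₀ ≤ d.X →
      NH d ι k' εT → d.toR.H2 ι → d.toR.H5 c κ π₀ ∅ →
        H d.P (fun ω => d.v (d.L ω)) ≤ ε * d.X * Real.log 2

end Pool.M5L
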