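import Pool.Agent.H33.M5.N1
import Pool.Agent.H60.N1L.Stmts
import Pool.Agent.H92.M5.Tools
import Pool.Agent.H86.OC.RASa

/-!
# N1 for arbitrary time laws: the choice of the bases
-/

set_option autoImplicit false

namespace Pool.M5L

open Finset Real Pool.M5
open Pool.Agent.H49.Ent Pool.Agent.H32.Dense Pool.STK Pool.KAF

/-- Separated points in a set of mass at least `1 / 2`. -/
theorem pick_pts {Ω : Type} [Fintype Ω] {q : Ω → ℝ} (hq : IsLaw q) (θ : Ω → ℝ) (N : Set Ω)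
    (K : ℕ) {ρ : ℝ} (hρ : 0 < ρ) (hN : Pr q Nᶜ ≤ 1 / 2)
    (hS : Ex q (fun v => Pr q {v' | |θ v' - θ v| < ρ}) ≤ 1 / (32 * ((K : ℝ) + 1))) :
    ∃ b : Fin (K + 1) → Ω, (∀ p, 0 < q (b p) ∧ b p ∈ N) ∧
      ∀ p r, p ≠ r → ρ ≤ |θ (b p) - θ (b r)| := by
  classical
  have hK : (0 : ℝ) < (K : ℝ) + 1 := by positivity
  set near : Ω → ℝ := fun v => Pr q {v' | |θ v' - θ v| < ρ} with hnear
  set B : Set Ω := {v | 1 / (8 * ((K : ℝ) + 1)) < near v} with hB
  have hnn : ∀ v, 0 ≤ near v := fun v => Pool.KAF.Pr_nonneg hq.nonneg _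
  have hBm : Pr q B ≤ 1 / 4 := by
    refine Pool.KX.AVG.markov hq.nonneg near (fun v _ => hnn v) _ _ (by positivity) ?_
    refine le_trans hS (le_of_eq ?_)
    field_simp
    norm_num
  have hG : ∀ E : Set Ω, Pr q E ≤ 1 / 8 → ∃ v, 0 < q v ∧ v ∈ N ∧ v ∉ B ∧ v ∉ E := by
    intro E hE
    by_contra hcon
    push Not at hcon
    have h1 : (1 : ℝ) ≤ Pr q Nᶜ + Pr q B + Pr q E := by
      rw [← hq.sum_one, Pr_eq, Pr_eq, Pr_eq, ← Finset.sum_add_distrib, ← Finset.sum_add_distrib]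
      refine Finset.sum_le_sum fun v _ => ?_
      have h0 := hq.nonneg v
      rcases h0.eq_or_lt with h2 | h2
      · rw [← h2]
        simp
      by_cases h3 : v ∈ N
      · by_cases h4 : v ∈ B
        · rw [if_pos h4]
          split_ifs <;> linarith
        · rw [if_pos (hcon v h2 h3 h4)]
          split_ifs <;> linarith
      · rw [if_pos (show v ∈ Nᶜ from h3)]
        split_ifs <;> linarith
    linarith
  have key : ∀ m : ℕ, m ≤ K + 1 → ∃ S : Finset Ω, S.card = m ∧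
      (∀ v ∈ S, 0 < q v ∧ v ∈ N ∧ v ∉ B) ∧
      ∀ v ∈ S, ∀ w ∈ S, v ≠ w → ρ ≤ |θ v - θ w| := by
    intro m
    induction m with
    | zero => exact fun _ => ⟨∅, rfl, fun v h => absurd h (Finset.notMem_empty v),
        fun v h => absurd h (Finset.notMem_empty v)⟩
    | succ m ih =>
      intro hm
      obtain ⟨S, hS1, hS2, hS3⟩ := ih (by omega)
      have h1 : Pr q {v' | ∃ v : S, v' ∈ {v' | |θ v' - θ v.1| < ρ}} ≤ 1 / 8 := by
        have h2 := NP.Pr_union hq.nonneg {v' | ∃ v : S, v' ∈ {v' | |θ v' - θ v.1| < ρ}}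
          (fun v : S => {v' | |θ v' - θ v.1| < ρ}) (fun v _ h => h)
        refine h2.trans ?_
        have h3 : ∀ v : S, Pr q {v' | |θ v' - θ v.1| < ρ} ≤ 1 / (8 * ((K : ℝ) + 1)) := by
          intro v
          have h4 := (hS2 v.1 v.2).2.2
          rw [hB, Set.mem_ofPred_eq, not_lt] at h4
          exact h4
        refine (Finset.sum_le_sum fun v _ => h3 v).trans ?_
        rw [Finset.sum_const, Finset.card_univ, Fintype.card_coe, hS1, nsmul_eq_mul]
        have h4 : (m : ℝ) ≤ (K : ℝ) + 1 := by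
          have : ((m : ℕ) : ℝ) ≤ ((K + 1 : ℕ) : ℝ) := by exact_mod_cast (by omega : m ≤ K + 1)
          push_cast at this
          exact this
        rw [mul_one_div, div_le_div_iff₀ (by positivity) (by norm_num)]
        linarith
      obtain ⟨v, hv1, hv2, hv3, hv4⟩ := hG _ h1
      have hv5 : ∀ w ∈ S, ρ ≤ |θ v - θ w| := by
        intro w hw
        by_contra hcon
        exact hv4 ⟨⟨w, hw⟩, not_le.1 hcon⟩
      have hv6 : v ∉ S := by
        intro h
        have := hv5 v h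
        rw [sub_self, abs_zero] at this
        linarith
      refine ⟨insert v S, by rw [Finset.card_insert_of_notMem hv6, hS1], ?_, ?_⟩
      · intro w hw
        rcases Finset.mem_insert.1 hw with rfl | h
        · exact ⟨hv1, hv2, hv3⟩
        · exact hS2 w h
      · intro w hw w' hw' hne
        rcases Finset.mem_insert.1 hw with h | h
        · rcases Finset.mem_insert.1 hw' with h' | h'
          · exact absurd (h.trans h'.symm) hne
          · rw [h]
            exact hv5 w' h'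
        · rcases Finset.mem_insert.1 hw' with h' | h'
          · rw [h', abs_sub_comm]
            exact hv5 w h
          · exact hS3 w h w' h' hne
  obtain ⟨S, hS1, hS2, hS3⟩ := key (K + 1) le_rfl
  refine ⟨fun p => (S.equivFinOfCardEq hS1).symm p, fun p => ?_, fun p r hpr => ?_⟩
  · have := hS2 _ ((S.equivFinOfCardEq hS1).symm p).2
    exact ⟨this.1, this.2.1⟩
  · refine hS3 _ ((S.equivFinOfCardEq hS1).symm p).2 _ ((S.equivFinOfCardEq hS1).symm r).2 ?_
    intro h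
    exact hpr ((S.equivFinOfCardEq hS1).symm.injective (Subtype.ext h))

/-- Most samples have predictable digits. -/
theorem gd_probl (K k' : ℕ) : ∃ B : ℝ, 1 ≤ B ∧
    ∀ (d : NDat (K + 1)) (A : ℕ), d.OK A → ∀ (s r k₁ k'' n : ℕ) (a εT : ℝ),
      B * 2 ^ (k'' + r) ≤ 2 ^ k₁ →
      Pr (dbl d.P d.L) {w | |d.th (d.T w.2) - d.th (d.T w.1)| < (2 : ℝ) ^ (-(k' : ℤ))} ≤ εT →
      Pr d.P {ω | ¬ NP.Gd d s r ((K + 1) * a) ω} ≤
        2 * Pr d.P {ω | ¬ NP.NiceP d (k' + 2) n k'' k₁ a s ω} + 32 * ((K : ℝ) + 1) * εT := by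
  classical
  obtain ⟨B, hB1, hB⟩ := NP.gd_of_bases K k'
  refine ⟨B, hB1, fun d A hOK s r k₁ k'' n a εT hBk hH => ?_⟩
  have hP := hOK.law
  have hP0 := hP.nonneg
  set N : Set d.Om := {ω | NP.NiceP d (k' + 2) n k'' k₁ a s ω} with hN
  have hNc : {ω | ¬ NP.NiceP d (k' + 2) n k'' k₁ a s ω} = Nᶜ := rfl
  rw [hNc]
  have hK : (0 : ℝ) < (K : ℝ) + 1 := by positivity
  set q : d.Om → d.Om → ℝ := fun ω => cond d.P d.L (d.L ω) with hq
  set g : d.Om → ℝ := fun v => Pr (q v) {v' | |d.th (d.T v') - d.th (d.T v)| <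
    (2 : ℝ) ^ (-(k' : ℤ))} with hg
  set f : d.Om → ℝ := fun ω => Ex (q ω) (fun v => Pr (q ω) {v' | |d.th (d.T v') - d.th (d.T v)| <
    (2 : ℝ) ^ (-(k' : ℤ))}) with hf
  have hqn : ∀ ω v, 0 ≤ q ω v := fun ω v => cond_nonneg hP0 _ _ v
  -- the first exceptional set
  have hA : Pr d.P {ω | 1 / 2 < Pr (cond d.P d.L (d.L ω)) Nᶜ} ≤ 2 * Pr d.P Nᶜ := by
    refine Pool.KX.AVG.markov hP0 (fun ω => Pr (cond d.P d.L (d.L ω)) Nᶜ)
      (fun ω _ => Pool.KAF.Pr_nonneg (cond_nonneg hP0 _ _) _) (1 / 2) (2 * Pr d.P Nᶜ)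
      (by norm_num) ?_
    rw [Pool.KX.AVG.Pr_cond_sum hP0 d.L Nᶜ]
    linarith
  -- the second exceptional set
  have hfg : ∀ ω, f ω = Ex (q ω) g := by
    intro ω
    rw [hf, hg]
    unfold Ex
    refine Finset.sum_congr rfl fun v _ => ?_
    rcases (hqn ω v).eq_or_lt with h0 | h0
    · rw [← h0, zero_mul, zero_mul]
    · have h1 := ((cond_pos_iff hP0 d.L (d.L ω) v).1 h0).2
      have h2 : q v = q ω := by
        rw [hq]
        simp only
        rw [h1]
      simp only [h2]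
  have hsum : ∑ ω, d.P ω * f ω ≤ εT := by
    have h1 : ∑ ω, d.P ω * f ω = ∑ ω, d.P ω * g ω := by
      have h2 := Pool.OC.RS.tower hP0 d.L g
      rw [← h2]
      refine Finset.sum_congr rfl fun ω _ => ?_
      rw [hfg ω]
      rfl
    rw [h1]
    rw [Pool.M5T.Pr_dbl] at hH
    exact hH
  have hBd : Pr d.P {ω | 1 / (32 * ((K : ℝ) + 1)) < f ω} ≤ 32 * ((K : ℝ) + 1) * εT := by
    refine Pool.KX.AVG.markov hP0 f (fun ω _ => ?_) _ _ (by positivity) ?_
    · exact Finset.sum_nonneg fun v _ =>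
        mul_nonneg (hqn ω v) (Pool.KAF.Pr_nonneg (hqn ω) _)
    · refine hsum.trans (le_of_eq ?_)
      field_simp
  -- off both sets
  have hsub : ∀ ω, 0 < d.P ω → ω ∈ {ω | ¬ NP.Gd d s r ((K + 1) * a) ω} →
      ω ∈ {ω | 1 / 2 < Pr (cond d.P d.L (d.L ω)) Nᶜ} ∨
      ω ∈ {ω | 1 / (32 * ((K : ℝ) + 1)) < f ω} := by
    intro ω hω hG
    by_contra hcon
    rw [not_or] at hcon
    obtain ⟨h1, h2⟩ := hcon
    rw [Set.mem_ofPred_eq, not_lt] at h1 h2
    have hql : IsLaw (q ω) := ⟨hqn ω, sum_cond d.P d.L (law_pos hP0 d.L hω).ne'⟩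
    obtain ⟨b, hb, hsep⟩ := pick_pts hql (fun v => d.th (d.T v)) N K
      (show (0 : ℝ) < (2 : ℝ) ^ (-(k' : ℤ)) by positivity) h1 h2
    have hb2 : ∀ p, 0 < d.P (b p) ∧ d.L (b p) = d.L ω := fun p =>
      (cond_pos_iff hP0 d.L (d.L ω) (b p)).1 (hb p).1
    have hb3 : ∀ p, NP.NiceP d (k' + 2) n k'' k₁ a s (b p) := fun p => (hb p).2
    have hsep' : ∀ p q, p ≠ q → 1 / 2 ^ k' ≤ |d.th (d.T (b p)) - d.th (d.T (b q))| := by
      intro p r hpr
      have e1 := hsep p r hpr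
      rw [zpow_neg, zpow_natCast, ← one_div] at e1
      exact e1
    choose i hi c hc using hb3
    refine hG (hB d A hOK s r k₁ k'' a ω b c i hBk (fun p => (hb2 p).2) hsep' ?_
      (fun p => (hc p).2.1) fun p => (hc p).2.2)
    intro p
    have hpos := (hc p).1
    have hw' : 0 < glue d.P d.P (fun ω => (d.L ω, d.Ti (i p) ω))
      (fun ω => (d.L ω, d.Ti (i p) ω)) (b p, c p) := hpos
    obtain ⟨-, -, h3⟩ := (glue_pos_iff hP0 hP0 (b p, c p)).1 hw'
    have h4 : d.Ti (i p) (b p) = d.Ti (i p) (c p) := congrArg Prod.snd h3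
    unfold NDat.Ti at h4
    have e1 := Int.floor_le ((2 : ℝ) ^ (i p) * d.th (d.T (b p)))
    have e2 := Int.lt_floor_add_one ((2 : ℝ) ^ (i p) * d.th (d.T (b p)))
    have e3 := Int.floor_le ((2 : ℝ) ^ (i p) * d.th (d.T (c p)))
    have e4 := Int.lt_floor_add_one ((2 : ℝ) ^ (i p) * d.th (d.T (c p)))
    rw [h4] at e1 e2
    have hpos : (0 : ℝ) < 2 ^ (i p) := by positivity
    have h5 : |d.th (d.T (c p)) - d.th (d.T (b p))| ≤ 1 / 2 ^ (i p) := by
      rw [le_div_iff₀ hpos, ← abs_of_pos hpos, ← abs_mul, abs_le]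
      constructor <;> nlinarith
    refine h5.trans ?_
    have h6 := (Finset.mem_Ico.1 (hi p)).1
    exact one_div_le_one_div_of_le (by positivity) (pow_le_pow_right₀ (by norm_num) h6)
  have hfin : Pr d.P {ω | ¬ NP.Gd d s r ((K + 1) * a) ω} ≤
      Pr d.P {ω | 1 / 2 < Pr (cond d.P d.L (d.L ω)) Nᶜ} +
      Pr d.P {ω | 1 / (32 * ((K : ℝ) + 1)) < f ω} := by
    rw [Pr_eq, Pr_eq, Pr_eq, ← Finset.sum_add_distrib]
    refine Finset.sum_le_sum fun ω _ => ?_
    have h0 := hP0 ω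
    by_cases h1 : ω ∈ {ω | ¬ NP.Gd d s r ((K + 1) * a) ω}
    · rw [if_pos h1]
      rcases h0.lt_or_eq with hp | hp
      · rcases hsub ω hp h1 with h2 | h2
        · rw [if_pos h2]
          split_ifs <;> linarith
        · rw [if_pos h2]
          split_ifs <;> linarith
      · rw [← hp]
        simp
    · rw [if_neg h1]
      split_ifs <;> linarith
  linarith

end Pool.M5L
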