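import Pool.Agent.H60.N1L.Pick
import Pool.Agent.H86.OC.ROW

/-!
# N1 for arbitrary time laws
-/

set_option autoImplicit false

namespace Pool.M5L

open Finset Real Pool.M5
open Pool.Agent.H49.Ent Pool.Agent.H32.Dense Pool.STK Pool.KAF Pool.OC

/-- N1 for at least one unknown number. -/
theorem n1l_aux (hR : RROWStmt) (K A : ℕ) (c ε : ℝ) (hc : 0 < c) (hε : 0 < ε) (hε1 : ε ≤ 1) :
    ∃ κ εT : ℝ, 0 < κ ∧ κ ≤ 1 ∧ 0 < εT ∧ ∀ k' : ℕ,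
    ∃ (π₀ ι : ℝ) (X₀ : ℕ), 0 < π₀ ∧ 0 < ι ∧ ∀ d : NDat (K + 1), d.OK A → X₀ ≤ d.X →
      NH d ι k' εT → d.toR.H2 ι → d.toR.H5 c κ π₀ ∅ →
        H d.P (fun ω => d.v (d.L ω)) ≤ ε * d.X * Real.log 2 := by
  obtain ⟨u, hu, -, hR1⟩ := hR A c hc
  have hK1 : (1 : ℝ) ≤ (K : ℝ) + 1 := by
    have : (0 : ℝ) ≤ K := Nat.cast_nonneg K
    linarith
  have hK0 : (0 : ℝ) < (K : ℝ) + 1 := by linarith
  obtain ⟨a₀, ha⟩ : ∃ a₀ : ℝ, a₀ = ε / (10 * ((K : ℝ) + 1) ^ 2) := ⟨_, rfl⟩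
  have ha0 : 0 < a₀ := by rw [ha]; positivity
  obtain ⟨r₀, hr⟩ : ∃ r₀ : ℕ, 30 * ((K : ℝ) + 1) / ε ≤ r₀ := ⟨_, Nat.le_ceil _⟩
  have hr1 : 1 ≤ r₀ := by
    have h1 : (0 : ℝ) < r₀ := lt_of_lt_of_le (by positivity) hr
    have h2 : 0 < r₀ := by exact_mod_cast h1
    omega
  obtain ⟨e, he⟩ : ∃ e : ℝ, e = ε * u * a₀ / (40 * ((K : ℝ) + 1)) := ⟨_, rfl⟩
  have he0 : 0 < e := by rw [he]; positivity
  obtain ⟨κ₂, hκ₂⟩ : ∃ κ₂ : ℝ, κ₂ = ε / (20 * ((K : ℝ) + 1)) := ⟨_, rfl⟩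
  have hκ₂0 : 0 < κ₂ := by rw [hκ₂]; positivity
  have hκ₂1 : κ₂ ≤ 1 / 20 := by
    rw [hκ₂, div_le_div_iff₀ (by positivity) (by norm_num)]
    linarith
  obtain ⟨εT, hεT, hT1, hT2⟩ : ∃ εT : ℝ, 0 < εT ∧
      32 * ((K : ℝ) + 1) * εT ≤ 4 * (ε / (40 * ((K : ℝ) + 1))) ∧
      εT ≤ ε * u / (40 * ((K : ℝ) + 1)) * (κ₂ / 2) := by
    refine ⟨min (ε / (320 * ((K : ℝ) + 1) ^ 2)) (ε * u / (40 * ((K : ℝ) + 1)) * (κ₂ / 2)),
      lt_min (by positivity) (by positivity), ?_, min_le_right _ _⟩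
    refine (mul_le_mul_of_nonneg_left (min_le_left _ _) (by positivity)).trans (le_of_eq ?_)
    field_simp
    norm_num
  refine ⟨κ₂ / 16, εT, by positivity, by linarith, hεT, fun k' => ?_⟩
  obtain ⟨B, hB1, hB⟩ := gd_probl K k'
  obtain ⟨k₁, hk₁⟩ : ∃ k₁ : ℕ, B * 2 ^ (k' + r₀) < 2 ^ k₁ :=
    pow_unbounded_of_one_lt _ (by norm_num)
  have hk : (K + 1) ^ 2 ≤ 2 ^ ((K + 1) ^ 2) := Nat.lt_two_pow_self.le
  obtain ⟨δ, hδ, hR2⟩ := hR1 ((K + 1) ^ 2) k₁ (2 ^ (K + 1)) e he0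
  obtain ⟨π₀, X₁, hπ₀, hR3⟩ := hR2 (κ₂ / 16) κ₂ (by positivity) (by linarith) hκ₂0
  obtain ⟨Xr, hXr⟩ : ∃ Xr : ℕ, 20 * ((K : ℝ) + 1) * ((r₀ : ℝ) + 1) / ε + 16 / κ₂ +
    4 * ((k' : ℝ) + 3) / κ₂ + ((r₀ : ℝ) + 1) / κ₂ ≤ Xr := ⟨_, Nat.le_ceil _⟩
  refine ⟨π₀, δ / 2, X₁ + Xr, hπ₀, by positivity, ?_⟩
  intro d hOK hX h1 h2 h5
  have hP := hOK.law
  have hX0 : (0 : ℝ) ≤ d.X := Nat.cast_nonneg _
  have hXr' : (Xr : ℝ) ≤ d.X := by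
    have : Xr ≤ d.X := by omega
    exact_mod_cast this
  have hc1 : 0 ≤ 20 * ((K : ℝ) + 1) * ((r₀ : ℝ) + 1) / ε := by positivity
  have hc2 : 0 ≤ 16 / κ₂ := by positivity
  have hc3 : 0 ≤ 4 * ((k' : ℝ) + 3) / κ₂ := by positivity
  have hc4 : 0 ≤ ((r₀ : ℝ) + 1) / κ₂ := by positivity
  have x1 : 20 * ((K : ℝ) + 1) * ((r₀ : ℝ) + 1) / ε ≤ d.X := by linarith
  have x2 : 16 ≤ d.X * κ₂ := by
    rw [← div_le_iff₀ hκ₂0]
    linarith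
  have x3 : 4 * ((k' : ℝ) + 3) ≤ d.X * κ₂ := by
    rw [← div_le_iff₀ hκ₂0]
    linarith
  have x4 : (r₀ : ℝ) + 1 ≤ d.X * κ₂ := by
    rw [← div_le_iff₀ hκ₂0]
    linarith
  obtain ⟨n, hn⟩ : ∃ n : ℕ, n = ⌊κ₂ * d.X⌋₊ := ⟨_, rfl⟩
  obtain ⟨h, hh⟩ : ∃ h : ℕ, h = ⌊κ₂ / 16 * d.X⌋₊ := ⟨_, rfl⟩
  have hn1 : (n : ℝ) ≤ κ₂ * d.X := by rw [hn]; exact Nat.floor_le (by positivity)
  have hn2 : κ₂ * d.X < n + 1 := by rw [hn]; exact Nat.lt_floor_add_one _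
  have hh1 : (h : ℝ) ≤ κ₂ / 16 * d.X := by rw [hh]; exact Nat.floor_le (by positivity)
  have hh2 : 1 ≤ h := by
    rw [hh]
    refine Nat.le_floor ?_
    push_cast
    linarith
  have hnr : r₀ ≤ n := by
    have : (r₀ : ℝ) < ((n + 1 : ℕ) : ℝ) := by push_cast; linarith
    have : r₀ < n + 1 := by exact_mod_cast this
    omega
  have hnh : 2 * (k' + 2) + 4 * h ≤ n := by
    have : ((2 * (k' + 2) + 4 * h : ℕ) : ℝ) < ((n + 1 : ℕ) : ℝ) := by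
      push_cast
      linarith
    have : 2 * (k' + 2) + 4 * h < n + 1 := by exact_mod_cast this
    omega
  have hnX : 20 * n ≤ d.X := by
    have : ((20 * n : ℕ) : ℝ) ≤ (d.X : ℝ) := by
      push_cast
      nlinarith
    exact_mod_cast this
  -- the rows
  obtain ⟨J, hJ1, hRow⟩ := hR3 d.toR ∅ ⟨hOK.law, hOK.hN, hOK.hZ⟩ (by
      show X₁ ≤ d.X
      omega) (by
      refine le_trans (show _ ≤ δ / 2 * (d.toR.X : ℝ) from h2) ?_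
      refine mul_le_mul_of_nonneg_right ?_ (Nat.cast_nonneg _)
      linarith) h5
  have hJ1' : d.toR.J1 J h u κ₂ ∅ := by
    rw [hh]
    exact hJ1
  have hTB : ∑ i ∈ Finset.Ico (k' + 2) n, Pr (NP.Qp d i) {w | |d.th (d.T w.2) - d.th (d.T w.1)| <
      (2 : ℝ) ^ (-((i : ℤ) + k'))} ≤ ε * u / (40 * ((K : ℝ) + 1)) * n := by
    have e1 : ∑ i ∈ Finset.Ico (k' + 2) n, Pr (NP.Qp d i) {w | |d.th (d.T w.2) - d.th (d.T w.1)| <
        (2 : ℝ) ^ (-((i : ℤ) + k'))} ≤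
        ∑ i ∈ range d.X, Pool.OCG.nr d.P d.L (fun ω => d.th (d.T ω)) k' i := by
      refine (Finset.sum_le_sum_of_subset_of_nonneg (s := Finset.Ico (k' + 2) n)
        (t := range d.X) (f := fun i => Pool.OCG.nr d.P d.L (fun ω => d.th (d.T ω)) k' i) ?_
        fun i _ _ => Pool.OCG.nr_nonneg hP.nonneg _ _ _ _)
      intro i hi
      have := (Finset.mem_Ico.1 hi).2
      exact Finset.mem_range.2 (by omega)
    refine e1.trans (h1.tb.trans ?_)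
    have e2 : κ₂ / 2 * d.X ≤ n := by linarith
    have e3 : εT * d.X ≤ ε * u / (40 * ((K : ℝ) + 1)) * (κ₂ / 2) * d.X :=
      mul_le_mul_of_nonneg_right hT2 hX0
    refine e3.trans ?_
    rw [mul_assoc]
    exact mul_le_mul_of_nonneg_left e2 (by positivity)
  have hRow' : ∀ i < n, ∑ s ∈ range d.X,
      Ex (NP.Qp d i) (Set.indicator {w | s + i ∈ J w.1} (NP.bad d s i k₁)) ≤ e * d.X := fun i _ =>
    NP.rowN d hOK (le_of_eq (by ring : 2 * (δ / 2) = δ)) hδ.le h1.mi J _ k₁ hk hRow i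
  obtain ⟨M, hMd⟩ : ∃ M : ℕ, M = (d.X - 2 * n) / r₀ := ⟨_, rfl⟩
  have hM1 : M * r₀ ≤ d.X - 2 * n := by rw [hMd]; exact Nat.div_mul_le_self _ _
  have hM2 : d.X - 2 * n < M * r₀ + r₀ := by rw [hMd]; exact Nat.lt_div_mul_add (by omega)
  have hnice := NP.nice_sum d hP J h n (k' + 2) k₁ k' (M * r₀) hh2 hu ha0 hnh (by omega) hJ1'
    hTB hRow'
  have hgd : ∑ s ∈ range (M * r₀), Pr d.P {ω | ¬ NP.Gd d s r₀ (((K : ℝ) + 1) * a₀) ω} ≤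
      2 * ∑ s ∈ range (M * r₀), Pr d.P {ω | ¬ NP.NiceP d (k' + 2) n k' k₁ a₀ s ω} +
        4 * (ε / (40 * ((K : ℝ) + 1))) * (M * r₀ : ℕ) := by
    calc ∑ s ∈ range (M * r₀), Pr d.P {ω | ¬ NP.Gd d s r₀ (((K : ℝ) + 1) * a₀) ω} ≤
          ∑ s ∈ range (M * r₀), (2 * Pr d.P {ω | ¬ NP.NiceP d (k' + 2) n k' k₁ a₀ s ω} +
            4 * (ε / (40 * ((K : ℝ) + 1)))) :=
          Finset.sum_le_sum fun s _ => by
            have e1 := hB d A hOK s r₀ k₁ k' n a₀ εT hk₁.le h1.tc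
            linarith
      _ = _ := by
          rw [Finset.sum_add_distrib, ← Finset.mul_sum, Finset.sum_const, Finset.card_range,
            nsmul_eq_mul]
          ring
  have htele := NP.tele d hOK (M := M) (R := 2 * n + r₀) (a := ((K : ℝ) + 1) * a₀) hr1 (by omega)
    (by omega) (by positivity)
  have hl2 : 0 < Real.log 2 := Real.log_pos (by norm_num)
  have hl3 : Real.log 3 ≤ 2 * Real.log 2 := by
    have h3 : Real.log 3 ≤ Real.log (2 ^ 2) := Real.log_le_log (by norm_num) (by norm_num)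
    rw [Real.log_pow] at h3
    exact_mod_cast h3
  have hMX : ((M * r₀ : ℕ) : ℝ) ≤ (d.X : ℝ) := by
    have : M * r₀ ≤ d.X := by omega
    exact_mod_cast this
  have hMX' : (M : ℝ) * r₀ ≤ d.X := by
    have := hMX
    push_cast at this
    exact this
  have key := NP.arith (K1 := (K : ℝ) + 1) (ε := ε) (u := u) (a₀ := a₀) (Lg := Real.log 2)
    (L3 := Real.log 3) (X := d.X) (n := n) (M := M) (S := ((M * r₀ : ℕ) : ℝ)) (r₀ := r₀)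
    (Sg := ∑ s ∈ range (M * r₀), Pr d.P {ω | ¬ NP.Gd d s r₀ (((K : ℝ) + 1) * a₀) ω})
    (Sn := ∑ s ∈ range (M * r₀), Pr d.P {ω | ¬ NP.NiceP d (k' + 2) n k' k₁ a₀ s ω})
    hK1 hε hu ha hl2 hl3 (Nat.cast_nonneg _) hMX hMX' (by rw [← hκ₂]; exact hn1) hr x1
    (by rw [← hκ₂, ← he]; exact hnice) hgd
  refine htele.trans (le_trans (le_of_eq ?_) key)
  push_cast
  ring

/-- **N1 for arbitrary time laws**, from the heavy rows. -/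
theorem n1l_of (hR : RROWStmt) : N1LStmt := by
  intro K A c ε hc hε
  rcases K with _ | K
  · refine ⟨1, 1, one_pos, le_rfl, one_pos, fun _ => ⟨1, 1, 0, one_pos, one_pos,
      fun d hOK _ _ _ _ => ?_⟩⟩
    have h := NP.Hc_base d hOK d.X
    rw [NP.Hc_top] at h
    push_cast at h
    rw [zero_mul] at h
    refine h.trans ?_
    have hl2 : 0 < Real.log 2 := Real.log_pos (by norm_num)
    positivity
  · obtain ⟨κ, εT, h1, h2, h3, h⟩ :=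
      n1l_aux hR K A c (min ε 1) hc (lt_min hε one_pos) (min_le_right _ _)
    refine ⟨κ, εT, h1, h2, h3, fun k' => ?_⟩
    obtain ⟨π₀, ι, X₀, h4, h5, h6⟩ := h k'
    refine ⟨π₀, ι, X₀, h4, h5, fun d a1 a2 a3 a4 a5 => ?_⟩
    refine (h6 d a1 a2 a3 a4 a5).trans ?_
    have hl2 : 0 < Real.log 2 := Real.log_pos (by norm_num)
    refine mul_le_mul_of_nonneg_right ?_ hl2.le
    exact mul_le_mul_of_nonneg_right (min_le_left _ _) (Nat.cast_nonneg _)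

/-- **Lemma N1 for arbitrary time laws.** -/
theorem n1l_thm : N1LStmt := n1l_of Pool.OC.RS.row_M5

end Pool.M5L
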